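import Pool.Agent.V11201.GP.Vc

set_option autoImplicit false

/-!
# Weighted vertex cover: gap reductions of constant depth or of small sensitivity

Circuits (`Circuit`, `nodeVal`, `nodeDepth`) are defined in `Pool/Agent/H568R2/Defs.lean`: inputs
`Fin N`, NOT gates and AND and OR gates of unbounded fan-in.

A proof that no ratio `c < 2` is possible unless P = NP by a gap reduction (graphs with a vertex
cover of weight at most `t` against graphs all of whose vertex covers have weight at least `ρ t`)
gives in particular such a reduction from parity. We consider reductions whose output is a graph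
`G x` with fixed vertex weights `w` and a fixed `t`, given by its adjacency matrix. The edge weight
`∑ min (w u, w v)` over the edges is assumed to be at most `D t`. For unit weights this says that the
graphs have at most `D t` edges; it holds for graphs with maximal degree `Δ` if `Δ w(V) ≤ 2 D t`, for
example in all known hardness results for a constant ratio, which hold for graphs with bounded
degree and with `t` proportional to `w(V)`.

1. Sensitivity. In every such reduction from the parity of `N` bits (of any complexity) some entry of
   the adjacency matrix has sensitivity at least `c N`, `c = (ρ - 1) / (4 D)`, at some input at which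
   the edge is present.
2. Constant depth. Such a reduction computed by circuits of depth `h` needs at least
   `2 ^ ((c N) ^ (1 / (h + 1)) / 100)` gates. So for no ratio `ρ > 1` and no `D` is the gap version of
   vertex cover hard for NP, or even for parity, under (nonuniform) `AC0` many-one reductions to
   graphs of bounded average degree, and reductions of polynomial size from the parity of `N` bits to
   graphs of arbitrary degree must have average degree `N / (log N) ^ O(1)`, relative to `t`.

Idea of the proof. If a vertex cover of weight at most `t` of the yes instance is extended to one of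
the no instance by the cheaper end points of the uncovered edges, then the new edges must have weight
at least `(ρ - 1) t`. So the flip of one variable changes on average a fraction `c` of the weight of
the edges; count the triples of an input, a variable and an edge which disappears. For (2) this is
applied after a random restriction, under which all entries become decision trees of small depth.
-/

namespace Pool.Agent.Results.MP_cff830_lc.ConstantDepthReductions

open Finset DomAC0 H568R2
open scoped Classical

/-- `S` is a vertex cover of `G`. -/
def IsCover {V : Type} (G : SimpleGraph V) (S : Finset V) : Prop :=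
  ∀ u v, G.Adj u v → u ∈ S ∨ v ∈ S

/-- The edge weight of `G`: the sum of `min (w u) (w v)` over all edges `uv` (half of the sum over
the ordered pairs). -/
noncomputable def edgeWeight {V : Type} [Fintype V] (w : V → ℝ) (G : SimpleGraph V) : ℝ :=
  (∑ u, ∑ v, if G.Adj u v then min (w u) (w v) else 0) / 2

/-- The graphs `G x`, `x ∈ {0,1}^N`, with the vertex weights `w ≥ 0` are a reduction from parity to
the gap version of weighted vertex cover, with threshold `t > 0` and ratio `ρ`, and they have edge
weight at most `D t`. -/
structure FromParity {V : Type} [Fintype V] {N : ℕ} (w : V → ℝ) (G : (Fin N → Bool) → SimpleGraph V)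
    (t ρ D : ℝ) : Prop where
  weights : ∀ v, 0 ≤ w v
  threshold : 0 < t
  even : ∀ x, Even (univ.filter fun i => x i = true).card →
    ∃ S, IsCover (G x) S ∧ ∑ v ∈ S, w v ≤ t
  odd : ∀ x, Odd (univ.filter fun i => x i = true).card →
    ∀ S, IsCover (G x) S → ρ * t ≤ ∑ v ∈ S, w v
  light : ∀ x, edgeWeight w (G x) ≤ D * t

/-- Let `ρ ≥ 1`, `D > 0` and `c = (ρ - 1) / (4 D)`.

1. Let `x ↦ G x` be a reduction from the parity of `N ≥ 1` bits to the gap version of weighted
vertex cover with ratio `ρ`, with graphs of edge weight at most `D t`. If for every edge `uv` of every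
`G x` there are at most `s` variables whose flip makes this edge disappear, then `c N ≤ s`.

2. For every `h` there is `X₀` such that, if such a reduction is computed by a circuit `C` (the
adjacency of `u` and `v` by the node `out u v`, of depth at most `h`) and `c N ≥ X₀`, then `C` has at
least `2 ^ ((c N) ^ (1 / (h + 1)) / 100)` gates. -/
theorem result :
    (∀ (N s : ℕ) (V : Type) [Fintype V] (w : V → ℝ) (G : (Fin N → Bool) → SimpleGraph V)
      (t ρ D : ℝ), 1 ≤ N → 1 ≤ ρ → 0 < D → FromParity w G t ρ D →
      (∀ u v x, (G x).Adj u v →
        (univ.filter fun i => ¬ (G (Function.update x i (!(x i)))).Adj u v).card ≤ s) →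
      (ρ - 1) / (4 * D) * N ≤ s) ∧
    ∀ h : ℕ, ∃ X₀ : ℝ, ∀ (N : ℕ) (C : Circuit (Fin N)) (V : Type) [Fintype V] (w : V → ℝ)
      (G : (Fin N → Bool) → SimpleGraph V) (out : V → V → Fin N ⊕ Fin C.size) (t ρ D : ℝ),
      1 ≤ ρ → 0 < D → (∀ u v, C.nodeDepth (out u v) ≤ h) →
      (∀ x u v, (G x).Adj u v ↔ C.nodeVal x (out u v) = true) →
      FromParity w G t ρ D → X₀ ≤ (ρ - 1) / (4 * D) * N →
      (2 : ℝ) ^ (((ρ - 1) / (4 * D) * N) ^ (1 / (h + 1 : ℝ)) / 100) ≤ C.size := by
  have hlight : ∀ (V : Type) [Fintype V] (w : V → ℝ) (G : SimpleGraph V) (a : ℝ),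
      edgeWeight w G ≤ a → Pool.Agent.V11201.GP.wt (Pool.Agent.V11201.GP.pw w)
        (fun p : V × V => G.Adj p.1 p.2) ≤ 2 * a := by
    intro V _ w G a ha
    have e : Pool.Agent.V11201.GP.wt (Pool.Agent.V11201.GP.pw w)
        (fun p : V × V => G.Adj p.1 p.2) = 2 * edgeWeight w G := by
      unfold Pool.Agent.V11201.GP.wt edgeWeight
      rw [Fintype.sum_prod_type, mul_div_cancel₀ _ (two_ne_zero)]
      rfl
    rw [e]
    linarith
  have hpw : ∀ (V : Type) (w : V → ℝ), (∀ v, 0 ≤ w v) →
      ∀ p : V × V, 0 ≤ Pool.Agent.V11201.GP.pw w p := fun V w hw p => le_min (hw _) (hw _)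
  refine ⟨?_, ?_⟩
  · intro N s V _ w G t ρ D hN hρ hD hE hs
    have ht : 0 < ρ * t := mul_pos (by linarith) hE.threshold
    have h := Pool.Agent.V11201.GP.sens_w (hpw V w hE.weights)
      (fun x (p : V × V) => (G x).Adj p.1 p.2) ?_ ((ρ - 1) / (4 * D)) s univ
      (fun p x hp => hs p.1 p.2 x hp) ?_
    · rwa [card_univ, Fintype.card_fin] at h
    · have h2 := Pool.Agent.V11201.GP.total w hE.weights G hE.odd ⟨0, hN⟩
      exact lt_of_lt_of_le (by positivity) h2
    · intro i _ x
      refine Pool.Agent.V11201.GP.pair_vc w hE.weights G hD ?_ hE.even hE.odd hρ i x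
      intro x
      have := hlight V w (G x) (D * t) (hE.light x)
      linarith
  · intro h
    obtain ⟨X₀, hX₀⟩ := Pool.Agent.V11201.GP.ac0_main_w h
    refine ⟨X₀, ?_⟩
    intro N C V _ w G out t ρ D hρ hD hh hadj hE hX
    have ht : 0 < ρ * t := mul_pos (by linarith) hE.threshold
    have hP : ∀ x, Pool.Agent.V11201.GP.Pres C (fun p : V × V => out p.1 p.2) x =
        fun p : V × V => (G x).Adj p.1 p.2 := by
      intro x
      funext p
      exact propext (hadj x p.1 p.2).symm
    refine hX₀ C (fun p : V × V => out p.1 p.2) (Pool.Agent.V11201.GP.pw w) ((ρ - 1) / (4 * D))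
      (fun p => hh p.1 p.2) (hpw V w hE.weights) ?_ (div_nonneg (by linarith) (by positivity))
      ?_ hX
    · intro r hr
      obtain ⟨i, hi⟩ := hr
      simp_rw [hP]
      have hnn : ∀ x, 0 ≤ Pool.Agent.V11201.GP.wt (Pool.Agent.V11201.GP.pw w)
          (fun p : V × V => (G x).Adj p.1 p.2) := by
        intro x
        refine sum_nonneg fun p _ => ?_
        split_ifs
        · exact hpw V w hE.weights p
        · exact le_rfl
      obtain ⟨x, hx⟩ : ∃ x, Odd (univ.filter fun j => ov r x j = true).card := by
        have hpar := Pool.Agent.Y601.SSE.odd_flip i (ov r fun _ => false)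
        by_cases hodd : Odd (univ.filter fun j => ov r (fun _ => false) j = true).card
        · exact ⟨_, hodd⟩
        · refine ⟨Pool.Agent.Y601.SSE.flip i fun _ => false, ?_⟩
          rw [Pool.Agent.Y601.SSE.ov_flip r i hi]
          exact hpar.2 hodd
      have h2 := Pool.Agent.V11201.GP.heavy w hE.weights _ (hE.odd _ hx)
      refine lt_of_lt_of_le ht (h2.trans ?_)
      exact single_le_sum (f := fun x => Pool.Agent.V11201.GP.wt (Pool.Agent.V11201.GP.pw w)
        (fun p : V × V => (G (ov r x)).Adj p.1 p.2)) (fun x _ => hnn _) (mem_univ x)
    · intro i x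
      rw [hP, hP]
      refine Pool.Agent.V11201.GP.pair_vc w hE.weights G hD ?_ hE.even hE.odd hρ i x
      intro x
      have := hlight V w (G x) (D * t) (hE.light x)
      linarith

end Pool.Agent.Results.MP_cff830_lc.ConstantDepthReductions
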