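import Pool.Agent.V11231.VCF.Fin

/-!
# Vertex cover and circuits with unreliable negations

The definitions used in the statement are in `Pool/Agent/V11231/FLT/Slot.lean` (`LiteralCircuit`:
circuits of nondecreasing real gates of fan-in two on bits and negated bits; `acceptance`,
`faultyAcceptance`: the probability that a random circuit of a family accepts an input, without
faults and if each negated input is stuck at `0` independently with probability `1 / D`), and in
`Pool/Agent/W896/FD/Graph.lean` (`bits G`: the bits that say whether `e` is an edge of `G`, for the unordered pairs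
`e` of vertices).

Idea of the proof. The hard instances for monotone circuits (`H630VC`) are graphs on `n` vertices:
disjoint unions of few cliques, and all pairs which touch a small set. Every vertex is replaced by a
class of `t` vertices, `t` about `D log N`, and the edges between the classes of two adjacent
vertices are exactly the faulty positions. Two large parts of two such classes are joined by faulty
positions, so that the least size of a cover is about `t` times the original one. The faults hide
these positions, since the faults at the positions of edges do not matter: a circuit that tolerates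
random faults becomes a randomised monotone circuit for the small graphs.
-/

set_option autoImplicit false

namespace Pool.Agent.Results.MP_cff830_lc.FaultyNegations

open Pool.Agent.V11231.FLT Pool.Agent.V11231.VCF
open Pool.Agent.W896.FD (bits)

/-- Let `0 < ε ≤ 1` and `0 < η ≤ 1`, and let `N` be large.

(1) Let `1 ≤ D ≤ N ^ (1 - η)`, and let a finite family of circuits on the edges of the graphs with
the vertices `inl i`, `inr i` (`i < N`) accept each graph with the edges `inl i -- inr i` all of
whose vertex covers have at least `(2 - ε) N` vertices with probability at least `4 / 5`, even if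
each negated input is stuck at `0` independently with probability `1 / D`, and accept each graph
with these edges and with a vertex cover of at most `(1 + ε) N` vertices with probability at most
`1 / 4`, without faults. Then some circuit of the family has at least `2 ^ (N ^ (η / 7))` gates.

(2) Let `D ≥ 1`, `ρ ≥ 1` and `ρ ^ 2 D ≤ N ^ (1 - η)`, and let a finite family of circuits on the
edges of the graphs with `N` vertices accept each graph all of whose vertex covers have at least
`(1 - ε) N` vertices with probability at least `4 / 5`, even if each negated input is stuck at `0`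
independently with probability `1 / D`, and accept each graph with a vertex cover of at most
`N / ρ` vertices with probability at most `1 / 4`, without faults. Then some circuit of the family
has at least `2 ^ (N ^ (η / 7))` gates.

(3) For all `N`, each vertex cover of each graph with the edges `inl i -- inr i` has at least `N` of
the `2 N` vertices. -/
theorem result :
    (∀ ε η : ℝ, 0 < ε → ε ≤ 1 → 0 < η → η ≤ 1 → ∃ N₀ : ℕ, ∀ N : ℕ, N₀ ≤ N →
      ∀ D : ℕ, 1 ≤ D → (D : ℝ) ≤ (N : ℝ) ^ (1 - η) →
      ∀ (R : Type) [Fintype R] [Nonempty R] (C : R → LiteralCircuit (Sym2 (Fin N ⊕ Fin N))),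
      (∀ G : SimpleGraph (Fin N ⊕ Fin N), (∀ i, G.Adj (Sum.inl i) (Sum.inr i)) →
        (∀ K : Finset (Fin N ⊕ Fin N), (∀ u v, G.Adj u v → u ∈ K ∨ v ∈ K) →
          (2 - ε) * N ≤ K.card) →
        4 / 5 ≤ faultyAcceptance C D (bits G)) →
      (∀ G : SimpleGraph (Fin N ⊕ Fin N), (∀ i, G.Adj (Sum.inl i) (Sum.inr i)) →
        (∃ K : Finset (Fin N ⊕ Fin N), (∀ u v, G.Adj u v → u ∈ K ∨ v ∈ K) ∧
          (K.card : ℝ) ≤ (1 + ε) * N) →
        acceptance C (bits G) ≤ 1 / 4) →
      ∃ r, (2 : ℝ) ^ ((N : ℝ) ^ (η / 7)) ≤ (C r).s) ∧
    (∀ ε η : ℝ, 0 < ε → ε ≤ 1 → 0 < η → η ≤ 1 → ∃ N₀ : ℕ, ∀ N : ℕ, N₀ ≤ N →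
      ∀ D : ℕ, 1 ≤ D → ∀ ρ : ℝ, 1 ≤ ρ → ρ ^ 2 * D ≤ (N : ℝ) ^ (1 - η) →
      ∀ (R : Type) [Fintype R] [Nonempty R] (C : R → LiteralCircuit (Sym2 (Fin N))),
      (∀ G : SimpleGraph (Fin N), (∀ K : Finset (Fin N), (∀ u v, G.Adj u v → u ∈ K ∨ v ∈ K) →
          (1 - ε) * N ≤ K.card) →
        4 / 5 ≤ faultyAcceptance C D (bits G)) →
      (∀ G : SimpleGraph (Fin N), (∃ K : Finset (Fin N), (∀ u v, G.Adj u v → u ∈ K ∨ v ∈ K) ∧
          (K.card : ℝ) ≤ N / ρ) →
        acceptance C (bits G) ≤ 1 / 4) →
      ∃ r, (2 : ℝ) ^ ((N : ℝ) ^ (η / 7)) ≤ (C r).s) ∧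
    (∀ (N : ℕ) (G : SimpleGraph (Fin N ⊕ Fin N)), (∀ i, G.Adj (Sum.inl i) (Sum.inr i)) →
      ∀ K : Finset (Fin N ⊕ Fin N), (∀ u v, G.Adj u v → u ∈ K ∨ v ∈ K) → N ≤ K.card) := by
  refine ⟨fun ε η h1 h2 h3 h4 => matched_graphs ε η h1 h2 h3 h4,
    fun ε η h1 h2 h3 h4 => all_graphs ε η h1 h2 h3 h4, fun N G hG K hK => ?_⟩
  have h1 : (Finset.univ : Finset (Fin N)).card ≤ K.card := by
    refine Finset.card_le_card_of_injOn
      (fun i => if (Sum.inl i : Fin N ⊕ Fin N) ∈ K then Sum.inl i else Sum.inr i) ?_ ?_
    · intro i _
      rcases hK _ _ (hG i) with h | h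
      · simp only [Finset.mem_coe, if_pos h]
        exact h
      · by_cases h' : (Sum.inl i : Fin N ⊕ Fin N) ∈ K
        · simp only [Finset.mem_coe, if_pos h']
          exact h'
        · simp only [Finset.mem_coe, if_neg h']
          exact h
    · intro i _ j _ hij
      by_cases hi : (Sum.inl i : Fin N ⊕ Fin N) ∈ K
      · by_cases hj : (Sum.inl j : Fin N ⊕ Fin N) ∈ K
        · simpa [hi, hj] using hij
        · simp [hi, hj] at hij
      · by_cases hj : (Sum.inl j : Fin N ⊕ Fin N) ∈ K
        · simp [hi, hj] at hij
        · simpa [hi, hj] using hij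
  rwa [Finset.card_univ, Fintype.card_fin] at h1

end Pool.Agent.Results.MP_cff830_lc.FaultyNegations
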