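import Pool.Agent.V11163.VC.Main

/-!
# Vertex cover below the ratio two is hard for read-once tensor networks, even with cancellations

A tree tensor network `Net K V Al W` (`Pool/Agent/TH700/PA/Defs.lean`) has leaves that read one
variable each (with a vector in `K ^ W` for each of its values); an inner node combines the vectors of
its two children by an arbitrary bilinear map. It accepts an input if a linear form of the vector of
the root is not zero. The field `K` and the weights are arbitrary, so there may be cancellations. The
tree is arbitrary; if every right child is a leaf then this is a matrix product (a weighted ordered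
read-once branching program, for any order of the variables). The bond dimension is `card W`. So
dynamic programs over any tree, and the counting of solutions (exactly, or modulo a prime) by
dynamic programming are of this kind.

The inputs are the adjacency bits of the graphs `G` on `n` vertices; all weights are one. For every
constant `c < 2` we consider networks which tell graphs with a vertex cover of size at most `n / 2`
from graphs all of whose vertex covers have size at least `(1 - 1 / g) n`; these values differ by the
factor `2 (1 - 1 / g)`, so any way to find the optimum within a factor `c < 2 (1 - 1 / g)` tells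
them apart. There is a constant `Γ` such that for all `g` and `n ≥ Γ g ^ 8` networks with any number
of nodes, which read every bit at most once and solve this problem, have bond dimension at least
`2 ^ (n / (Γ g ^ 4))`. This holds up to the factor `2 ^ μ` also for random networks which never accept
a graph of the second kind and accept every graph of the first kind with probability at least
`2 ^ (- μ)` (the deterministic case is `R = Unit`, `μ = 0`).

Conversely the number of the vertex covers with at most `m` elements (in particular, whether there
is one) is computed by a linear network over `ℚ` with bond dimension `2 ^ n` which reads every bit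
once. So for every fixed ratio `c < 2` the bond dimension needed is `2 ^ Θ(n)`, as for the exact
problem.

**Proof.** The nodes of the tree give a partition of the pairs of vertices into `t = 1152 g ^ 4 + 1`
parts, each of them read between at most three nodes, such that no part contains more than `2 y ^ 2`
pairs, `y = n / (12 g ^ 2)`. Every part has rank at most the cube of the bond dimension. Take for each
part a random set of vertices; in the graph of a set exactly the pairs of elements of the set are not
adjacent. If an independent set `J` of the mixture has more than `n / g` elements then at least `3 n`
pairs (part, vertex of `J` which is in a pair of this part within `J`) have to agree with the random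
sets, which has probability at most `2 ^ (- 3 n)`; there are `2 ^ n` sets `J`. On the other hand, by
the replacement lemma (`rand_density`) among any `t * rank + 1` accepted graphs some mixture of
different ones is accepted.
-/

set_option autoImplicit false

namespace Pool.Agent.Results.MP_cff830_lc.TensorNetworks

open Pool.Agent.TH700.PA Pool.Agent.V11163.VC

/-- (1) There is a constant `Γ` such that for all `g ≥ 1` and `n ≥ Γ g ^ 8`: let `T ρ` be a finite
nonempty family of tree tensor networks over fields `K ρ` which read every adjacency bit at most
once. If all outputs are zero for each graph on `n` vertices all of whose vertex covers have at least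
`(1 - 1 / g) n` elements, and at least a `2 ^ (- μ)` fraction of the outputs is not zero for each graph
with a vertex cover of at most `n / 2` elements, then `2 ^ n ≤ (2 ^ μ |W ρ|) ^ (Γ g ^ 4)` for some `ρ`.

(2) For `n ≥ 1` and all `m` a linear network over `ℚ` with bond dimension `2 ^ n` which reads every
bit once computes the number of the vertex covers with at most `m` elements. -/
theorem result :
    (∃ Γ : ℕ, ∀ g n : ℕ, 1 ≤ g → Γ * g ^ 8 ≤ n →
      ∀ (μ : ℕ) (R : Type) [Fintype R] [Nonempty R] (K W : R → Type) [∀ ρ, Field (K ρ)]
        [∀ ρ, Fintype (W ρ)] (T : ∀ ρ, Net (K ρ) (Sym2 (Fin n)) Bool (W ρ))
        (a : ∀ ρ, W ρ → K ρ),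
        (∀ ρ e, (T ρ).reads e ≤ 1) →
        (∀ ρ (G : SimpleGraph (Fin n)), (∀ C, Cover G C → (g - 1) * n ≤ g * C.card) →
          (T ρ).value (a ρ) (bits G) = 0) →
        (∀ G : SimpleGraph (Fin n), (∃ C, Cover G C ∧ 2 * C.card ≤ n) →
          Nat.card R ≤ 2 ^ μ * Nat.card {ρ // (T ρ).value (a ρ) (bits G) ≠ 0}) →
        ∃ ρ, 2 ^ n ≤ (2 ^ μ * Fintype.card (W ρ)) ^ (Γ * g ^ 4)) ∧
    ∀ n m : ℕ, 1 ≤ n →
      ∃ (T : Net ℚ (Sym2 (Fin n)) Bool (Finset (Fin n))) (a : Finset (Fin n) → ℚ),
        T.Linear ∧ (∀ e, T.reads e = 1) ∧ Fintype.card (Finset (Fin n)) = 2 ^ n ∧
          ∀ G : SimpleGraph (Fin n), T.value a (bits G) =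
            (Nat.card {C : Finset (Fin n) // Cover G C ∧ C.card ≤ m} : ℚ) :=
  ⟨main, fun n m hn => by
    obtain ⟨T, a, h1, h2, h3⟩ := upper n m hn
    exact ⟨T, a, h1, h2, by rw [Fintype.card_finset, Fintype.card_fin], h3⟩⟩

end Pool.Agent.Results.MP_cff830_lc.TensorNetworks
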