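import Pool.Agent.V11201.GP.Vc

set_option autoImplicit false

/-!
# Weighted vertex cover and unate gap reductions

A proof that no ratio `c < 2` is possible unless P = NP by a gap reduction (graphs with a vertex
cover of weight at most `t` against graphs all of whose vertex covers have weight at least `ρ t`)
gives in particular such a reduction from parity. We consider reductions whose output is a graph
`G x` with fixed vertex weights `w` and a fixed `t`, given by its adjacency matrix. The edge weight
`∑ min (w u, w v)` over the edges is assumed to be at most `D t`. For unit weights this says that the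
graphs have at most `D t` edges; it holds for graphs with maximal degree `Δ` if `Δ w(V) ≤ 2 D t`.

A bit is unate if in each variable it is nondecreasing or nonincreasing (different variables may
have different directions, and the directions may be different for different bits); nothing is assumed
about its complexity. Monotone functions, threshold functions with arbitrary real weights, and
conjunctions of literals are unate; a disjunctive normal form with `k` terms is a disjunction of `k`
unate bits.

Result: if all entries of the adjacency matrix are disjunctions of `k` unate bits, such a reduction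
from the parity of `N` bits satisfies `2 k |V| w(V) / (ρ t) ≥ exp (c² N / (2 k²))`, `c = (ρ - 1) / (4 D)`.
So for every ratio `ρ > 1` the graphs have exponentially many vertices or an exponentially large ratio
of the total weight to `t`, or `D` or `k` is large (`k D` at least of the order `√(N / log N)`).

Idea of the proof. If a vertex cover of weight at most `t` of the yes instance is extended to one of
the no instance by the cheaper end points of the uncovered edges, then the new edges must have weight
at least `(ρ - 1) t`. So the flip of one variable changes on average a fraction `c` of the weight of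
the edges. The number of sensitive variables of a unate bit, summed over the inputs at which it is
one, is the sum of a linear form with coefficients `± 1` in the `± 1` variables over these inputs; and
such linear forms are large only at exponentially few inputs.
-/

namespace Pool.Agent.Results.MP_cff830_lc.UnateReductions

open Finset
open scoped Classical

/-- `S` is a vertex cover of `G`. -/
def IsCover {V : Type} (G : SimpleGraph V) (S : Finset V) : Prop :=
  ∀ u v, G.Adj u v → u ∈ S ∨ v ∈ S

/-- The edge weight of `G`: the sum of `min (w u) (w v)` over all edges `uv` (half of the sum over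
the ordered pairs). -/
noncomputable def edgeWeight {V : Type} [Fintype V] (w : V → ℝ) (G : SimpleGraph V) : ℝ :=
  (∑ u, ∑ v, if G.Adj u v then min (w u) (w v) else 0) / 2

/-- The graphs `G x`, `x ∈ {0,1}^N`, with the vertex weights `w ≥ 0` are a reduction from parity to
the gap version of weighted vertex cover, with threshold `t > 0` and ratio `ρ`, and they have edge
weight at most `D t`. -/
structure FromParity {V : Type} [Fintype V] {N : ℕ} (w : V → ℝ) (G : (Fin N → Bool) → SimpleGraph V)
    (t ρ D : ℝ) : Prop where
  weights : ∀ v, 0 ≤ w v
  threshold : 0 < t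
  even : ∀ x, Even (univ.filter fun i => x i = true).card →
    ∃ S, IsCover (G x) S ∧ ∑ v ∈ S, w v ≤ t
  odd : ∀ x, Odd (univ.filter fun i => x i = true).card →
    ∀ S, IsCover (G x) S → ρ * t ≤ ∑ v ∈ S, w v
  light : ∀ x, edgeWeight w (G x) ≤ D * t

/-- Each of the bits `F x q` is, in each of the variables, nondecreasing or nonincreasing. -/
def Unate {N : ℕ} {Q : Type} (F : (Fin N → Bool) → Q → Prop) : Prop :=
  ∀ q i, (∀ x, F (Function.update x i false) q → F (Function.update x i true) q) ∨
    (∀ x, F (Function.update x i true) q → F (Function.update x i false) q)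

/-- Let `ρ ≥ 1`, `D > 0` and `c = (ρ - 1) / (4 D)`, and let `x ↦ G x` be a reduction from the parity
of `N ≥ 1` bits to the gap version of weighted vertex cover with ratio `ρ`, with graphs of edge weight
at most `D t`. If every entry `(G x).Adj u v` of the adjacency matrix is the disjunction of `k ≥ 1`
unate bits `F x ((u, v), j)`, then `exp (c² N / (2 k²)) ≤ 2 k |V| w(V) / (ρ t)`. -/
theorem result {N k : ℕ} {V : Type} [Fintype V] (w : V → ℝ)
    (G : (Fin N → Bool) → SimpleGraph V) (F : (Fin N → Bool) → (V × V) × Fin k → Prop)
    (hF : Unate F) (hGF : ∀ x u v, (G x).Adj u v ↔ ∃ j, F x ((u, v), j)) (hN : 1 ≤ N) (hk : 1 ≤ k)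
    {t ρ D : ℝ} (hρ : 1 ≤ ρ) (hD : 0 < D) (hE : FromParity w G t ρ D) :
    Real.exp (((ρ - 1) / (4 * D)) ^ 2 * N / (2 * k ^ 2)) ≤
      2 * k * Fintype.card V * (∑ v, w v) / (ρ * t) := by
  have ht : 0 < ρ * t := mul_pos (by linarith) hE.threshold
  have hpw : ∀ p : V × V, 0 ≤ Pool.Agent.V11201.GP.pw w p :=
    fun p => le_min (hE.weights _) (hE.weights _)
  have hΩ : ∑ p, Pool.Agent.V11201.GP.pw w p ≤ Fintype.card V * ∑ v, w v := by
    rw [Fintype.sum_prod_type]
    calc ∑ u, ∑ v, Pool.Agent.V11201.GP.pw w (u, v) ≤ ∑ _u : V, ∑ v, w v :=
          sum_le_sum fun u _ => sum_le_sum fun v _ => min_le_right _ _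
      _ = _ := by rw [sum_const, nsmul_eq_mul, card_univ]
  have hle : ∀ x, Pool.Agent.V11201.GP.wt (Pool.Agent.V11201.GP.pw w)
      (fun p : V × V => (G x).Adj p.1 p.2) ≤ ∑ p, Pool.Agent.V11201.GP.pw w p := by
    intro x
    refine sum_le_sum fun p _ => ?_
    split_ifs
    · exact le_rfl
    · exact hpw p
  have hodd : ρ * t / 2 ≤ ∑ p, Pool.Agent.V11201.GP.pw w p := by
    have h1 : ∃ x : Fin N → Bool, Odd (univ.filter fun j => x j = true).card := by
      have hpar := Pool.Agent.Y601.SSE.odd_flip (⟨0, hN⟩ : Fin N) (fun _ => false)
      by_cases ho : Odd (univ.filter fun j : Fin N => (fun _ => false) j = true).card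
      · exact ⟨_, ho⟩
      · exact ⟨_, hpar.2 ho⟩
    obtain ⟨x, hx⟩ := h1
    have h2 := Pool.Agent.V11201.GP.heavy w hE.weights _ (hE.odd _ hx)
    have h3 := hle x
    linarith
  have h := Pool.Agent.V11201.GP.unate_w (k := k) hpw (U := F) hF
    (A := fun x (p : V × V) => (G x).Adj p.1 p.2) (fun x p => hGF x p.1 p.2)
    (τ := ρ * t / 2) (by positivity)
    (Pool.Agent.V11201.GP.total w hE.weights G hE.odd ⟨0, hN⟩) hodd hk
    (c := (ρ - 1) / (4 * D)) (div_nonneg (by linarith) (by positivity)) ?_
  · rw [Fintype.card_fin] at h
    refine h.trans ?_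
    rw [div_le_div_iff₀ (by positivity) ht]
    have hk0 : (0 : ℝ) ≤ k := Nat.cast_nonneg _
    have h1 : (k : ℝ) * ∑ p, Pool.Agent.V11201.GP.pw w p ≤ k * (Fintype.card V * ∑ v, w v) :=
      mul_le_mul_of_nonneg_left hΩ hk0
    calc (k : ℝ) * (∑ p, Pool.Agent.V11201.GP.pw w p) * (ρ * t)
        ≤ k * (Fintype.card V * ∑ v, w v) * (ρ * t) := mul_le_mul_of_nonneg_right h1 ht.le
      _ = 2 * k * Fintype.card V * (∑ v, w v) * (ρ * t / 2) := by ring
  · intro i x
    refine Pool.Agent.V11201.GP.pair_vc w hE.weights G hD ?_ hE.even hE.odd hρ i x
    intro x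
    have h1 := hE.light x
    have e : Pool.Agent.V11201.GP.wt (Pool.Agent.V11201.GP.pw w)
        (fun p : V × V => (G x).Adj p.1 p.2) = 2 * edgeWeight w (G x) := by
      unfold Pool.Agent.V11201.GP.wt edgeWeight
      rw [Fintype.sum_prod_type, mul_div_cancel₀ _ (two_ne_zero)]
      rfl
    rw [e]
    linarith

end Pool.Agent.Results.MP_cff830_lc.UnateReductions
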